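import Pool.Agent.helper26.IM.SpecA

set_option autoImplicit false

open Finset

namespace Pool.Agent.helper26.IM

open Pool.Agent.RRank Pool.Agent.helper35.MR

theorem EXI : EXI_stmt := by
  intro K _ _ L _ _ A B hAB hint φ
  letI : Algebra A B := (Subalgebra.inclusion hAB).toRingHom.toAlgebra
  have halg : ∀ a : A, algebraMap A B a = Subalgebra.inclusion hAB a := fun a => rfl
  -- B is integral over A
  haveI : Algebra.IsIntegral A B := ⟨fun x => by
    obtain ⟨p, hp, hx⟩ := hint (x : L) x.2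
    refine ⟨p, hp, ?_⟩
    apply Subtype.ext
    have h1 : ((Polynomial.eval₂ (algebraMap A B) x p : B) : L) =
        Polynomial.eval₂ (B.val.toRingHom.comp (algebraMap A B)) (B.val.toRingHom x) p :=
      Polynomial.hom_eval₂ p (algebraMap A B) B.val.toRingHom x
    rw [h1]
    exact hx⟩
  -- the kernel of φ
  have hsurj : Function.Surjective φ := fun c => ⟨algebraMap K A c, by rw [AlgHom.commutes]; rfl⟩
  haveI hmax : (RingHom.ker φ.toRingHom).IsMaximal := RingHom.ker_isMaximal_of_surjective φ.toRingHom hsurj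
  have hker : RingHom.ker (algebraMap A B) ≤ RingHom.ker φ.toRingHom := by
    intro a ha
    rw [RingHom.mem_ker, halg] at ha
    have h0 : (a : L) = 0 := congrArg (Subtype.val) ha
    have h1 : a = 0 := Subtype.ext h0
    rw [h1]
    exact Ideal.zero_mem _
  obtain ⟨Q, hQ, hQP⟩ := Ideal.exists_ideal_over_maximal_of_isIntegral (S := B) (RingHom.ker φ.toRingHom) hker
  haveI := hQ
  letI : Field (B ⧸ Q) := Ideal.Quotient.field Q
  have hcomp : ∀ a : A, Ideal.Quotient.mk Q (algebraMap A B a) = algebraMap K (B ⧸ Q) (φ a) := by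
    intro a
    have h1 : a - algebraMap K A (φ a) ∈ RingHom.ker φ.toRingHom := by
      rw [RingHom.mem_ker]
      show φ (a - algebraMap K A (φ a)) = 0
      rw [map_sub, AlgHom.commutes]
      exact sub_self _
    rw [← hQP, Ideal.mem_comap] at h1
    have h2 : Ideal.Quotient.mk Q (algebraMap A B (a - algebraMap K A (φ a))) = 0 :=
      Ideal.Quotient.eq_zero_iff_mem.2 h1
    rw [map_sub, map_sub, sub_eq_zero] at h2
    rw [h2]
    rfl
  haveI : Algebra.IsIntegral K (B ⧸ Q) := ⟨fun y => by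
    obtain ⟨b, rfl⟩ := Ideal.Quotient.mk_surjective y
    obtain ⟨p, hp, hb⟩ := Algebra.IsIntegral.isIntegral (R := A) b
    refine ⟨p.map φ.toRingHom, hp.map _, ?_⟩
    rw [Polynomial.eval₂_map]
    have h1 : (algebraMap K (B ⧸ Q)).comp φ.toRingHom = (Ideal.Quotient.mk Q).comp (algebraMap A B) := by
      ext a
      exact (hcomp a).symm
    rw [h1, ← Polynomial.hom_eval₂, hb, map_zero]⟩
  have hbij : Function.Bijective (algebraMap K (B ⧸ Q)) := IsAlgClosed.algebraMap_bijective_of_isIntegral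
  let e : K ≃ₐ[K] (B ⧸ Q) := AlgEquiv.ofBijective (Algebra.ofId K (B ⧸ Q)) hbij
  refine ⟨e.symm.toAlgHom.comp (Ideal.Quotient.mkₐ K Q), fun x => ?_⟩
  show e.symm (Ideal.Quotient.mk Q (Subalgebra.inclusion hAB x)) = φ x
  rw [← halg, hcomp]
  exact e.symm_apply_apply (φ x)

end Pool.Agent.helper26.IM
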